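import Mathlib
import Pool.Agent.Helper168.GG.CycEig

/-!
# Growth gaps that do not depend on the rank: eigenvalues from integer matrices with few large
singular values

`G = ⟨S⟩` and `H` is a subgroup of index at most `d`.  For a square integer matrix `B` let `M(B)` be
the Mahler measure of its characteristic polynomial, so that `M(Bᵀ B)` is the product of the numbers
`max(1, σ ^ 2)` over the singular values `σ` of `B`.  Call `z` small (for `K`) if it is a power `y ^ m`
(`m ≠ 0` an integer) of an eigenvalue `y` of some integer matrix `B`, of any size, with irreducible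
characteristic polynomial and `log M(Bᵀ B) ≤ K`.

* Let `Γ = γ_{k+1}(H)` be nilpotent (or `H/[Γ,Γ]` not virtually nilpotent), and suppose that for each
  element `t` of `H` which is a product of at most `3 · 2^(k-1) (2 d - 1)` elements of `S`, each
  eigenvalue of `t` on `ℂ ⊗ Γ^ab` that is an algebraic unit and not a root of unity is small.  Then
  `G` is virtually nilpotent or `ρ_S ≥ c / (2 ^ k d (1 + K) ^ 3)`.
* Let `H = N⟨s⟩` with a nilpotent normal subgroup `N` of `H`, and suppose that each eigenvalue of `s`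
  on `ℂ ⊗ N^ab` that is an algebraic unit and not a root of unity is small; for example `N^ab = ℤ ^ n`
  and `s` acts on it by a matrix `A` with irreducible characteristic polynomial and
  `log M(Aᵀ A) ≤ K`.  Then `G` is virtually nilpotent or `ρ_S ≥ c / (d (1 + K) ^ 3)`.

Here `c > 0` is an absolute constant.
-/

set_option autoImplicit false

namespace Pool.Agent.Results.MP_d69e80_al.GramGrowth

open Filter Topology Polynomial
open scoped Pointwise TensorProduct

universe u

/-- The term `γ_{k+1}(G)` of the lower central series (so `k = 1` gives `G'`). -/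
abbrev gamma (G : Type*) [Group G] (k : ℕ) : Subgroup G := (⊤ : Subgroup G).lowerCentralSeries k

/-- Conjugation by `t` on the abelianization `N^ab` (written additively) of a normal subgroup `N`,
as an endomorphism of the abelian group `N^ab`. -/
noncomputable def conjAb {G : Type*} [Group G] (N : Subgroup G) [N.Normal] (t : G) :
    Module.End ℤ (Additive (Abelianization N)) :=
  (MonoidHom.toAdditive
    (Abelianization.map (MulAut.conjNormal t : N ≃* N).toMonoidHom)).toIntLinearMap

/-- `z` is an eigenvalue of `t` acting by conjugation on `ℂ ⊗ N^ab`, it is an algebraic unit and not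
a root of unity. -/
def UnitEigenvalue {H : Type*} [Group H] (N : Subgroup H) [N.Normal] (t : H) (z : ℂ) : Prop :=
  Module.End.HasEigenvalue (LinearMap.baseChange ℂ (conjAb N t) :
    Module.End ℂ (ℂ ⊗[ℤ] Additive (Abelianization N))) z ∧
  IsIntegral ℤ z ∧ IsIntegral ℤ z⁻¹ ∧ ∀ m : ℕ, 0 < m → z ^ m ≠ 1

/-- The Mahler measure `M(B)` of the characteristic polynomial of an integer matrix. -/
noncomputable def measure {n : ℕ} (B : Matrix (Fin n) (Fin n) ℤ) : ℝ :=
  (B.charpoly.map (Int.castRingHom ℂ)).mahlerMeasure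

/-- The characteristic polynomial of `B` is irreducible and `log M(Bᵀ B) ≤ K`. -/
def Small (K : ℝ) {n : ℕ} (B : Matrix (Fin n) (Fin n) ℤ) : Prop :=
  Irreducible B.charpoly ∧ Real.log (measure (B.transpose * B)) ≤ K

/-- `z` is a power `y ^ m`, with an integer `m ≠ 0`, of an eigenvalue `y` of a square integer matrix
`B` (of any size) with `Small K B`. -/
def PowerOfSmall (K : ℝ) (z : ℂ) : Prop :=
  ∃ (n : ℕ) (B : Matrix (Fin n) (Fin n) ℤ) (y : ℂ) (m : ℤ), Small K B ∧
    aeval y B.charpoly = 0 ∧ m ≠ 0 ∧ z = y ^ m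

/-- `S` is a finite generating set of `G` and the subgroup `H` has index at most `d`. -/
def Setting (d : ℕ) {G : Type*} [Group G] (S : Set G) (H : Subgroup G) : Prop :=
  S.Finite ∧ Subgroup.closure S = ⊤ ∧ H.index ≠ 0 ∧ H.index ≤ d

/-- `Γ = γ_{k+1}(H)` is nilpotent or `H / [Γ, Γ]` is not virtually nilpotent, and for each element
`t` of `H` that is a product of at most `3 · 2^(k-1) (2 d - 1)` elements of `S`, every
`UnitEigenvalue` of `t` on `Γ^ab` is a `PowerOfSmall K`. -/
def SmallBall (k d : ℕ) (K : ℝ) {G : Type*} [Group G] (S : Set G) (H : Subgroup G) : Prop :=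
  1 ≤ k ∧
    (Group.IsNilpotent (gamma H k) ∨ ¬ Group.IsVirtuallyNilpotent (H ⧸ ⁅gamma H k, gamma H k⁆)) ∧
    ∀ (t : H) (z : ℂ), (t : G) ∈ (insert 1 S) ^ (3 * 2 ^ (k - 1) * (2 * d - 1)) →
      UnitEigenvalue (gamma H k) t z → PowerOfSmall K z

/-- `H = N⟨s⟩` with a nilpotent normal subgroup `N` of `H`, and either every `UnitEigenvalue` of `s`
on `N^ab` is a `PowerOfSmall K`, or `N^ab` has a `ℤ`-basis in which `s` has a matrix `A` with
`Small K A`. -/
def SmallCyclic (K : ℝ) (H : Type*) [Group H] : Prop :=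
  ∃ (N : Subgroup H) (_ : N.Normal) (s : H), Group.IsNilpotent N ∧ N ⊔ Subgroup.zpowers s = ⊤ ∧
    ((∀ z : ℂ, UnitEigenvalue N s z → PowerOfSmall K z) ∨
      ∃ (n : ℕ) (b : Module.Basis (Fin n) ℤ (Additive (Abelianization N))),
        Small K (LinearMap.toMatrix b b (conjAb N s)))

theorem result : ∃ c : ℝ, 0 < c ∧
    ∀ (d : ℕ) (G : Type u) [Group G] (S : Set G) (H : Subgroup G), Setting d S H →
      ∃ ρ : ℝ, Tendsto (fun n : ℕ => Real.log (Nat.card ↥(S ^ n)) / n) atTop (𝓝 ρ) ∧
        ∀ K : ℝ, 0 ≤ K →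
          (∀ k : ℕ, SmallBall k d K S H →
            Group.IsVirtuallyNilpotent G ∨ c / (2 ^ k * d * (1 + K) ^ 3) ≤ ρ) ∧
          (SmallCyclic K H → Group.IsVirtuallyNilpotent G ∨ c / (d * (1 + K) ^ 3) ≤ ρ) := by
  obtain ⟨c1, hc1, h1⟩ := Pool.Agent.Helper168.GG.log_MM_of_powSmall
  obtain ⟨c2, hc2, h2⟩ := Pool.Agent.Helper168.GG.gap_eig_index.{u}
  set c0 := min c1 (1 / 2) with hc0def
  have hc0 : 0 < c0 := lt_min hc1 (by norm_num)
  refine ⟨min (c0 / 12) c2, lt_min (by positivity) hc2, ?_⟩
  rintro d G _ S H ⟨hfin, hgen, hH0, hHd⟩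
  have hd : (0 : ℝ) < d := by
    have : 0 < d := by omega
    exact_mod_cast this
  refine ⟨H746UG.rho S, H746UG.tendsto_rho S, ?_⟩
  intro K hK
  have hpow' : ∀ z : ℂ, PowerOfSmall K z → Pool.Agent.Helper168.GG.PowSmall K z := by
    rintro z ⟨n, B, y, m, ⟨g1, g2⟩, g3, g4, g5⟩
    exact ⟨n, B, y, m, g1, g3, g2, g4, g5⟩
  constructor
  · rintro k ⟨hk, hnil, hpow⟩
    have hy0 : 0 ≤ c0 / (1 + K) ^ 3 := by positivity
    have hy : c0 / (1 + K) ^ 3 ≤ 1 / 2 :=
      (div_le_self hc0.le (one_le_pow₀ (by linarith))).trans (min_le_right _ _)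
    have h4 := Pool.Agent.Helper168.GG.gap_ball_log hk S hfin hgen H hH0 hHd hnil hy0 hy (by
      intro t x ht hx0 hx hxi hxi' heig
      refine le_trans ?_ (h1 K x (hpow' x (hpow t x ht ⟨heig, hxi, hxi', hx⟩)) hx0 hx hxi hxi')
      exact div_le_div_of_nonneg_right (min_le_left _ _) (by positivity))
    refine h4.imp_right fun h5 => le_trans ?_ h5
    have e : c0 / (1 + K) ^ 3 / 12 / (2 ^ k * d) = (c0 / 12) / (2 ^ k * d * (1 + K) ^ 3) := by
      rw [div_div, div_div, div_div]
      congr 1
      ring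
    rw [e]
    exact div_le_div_of_nonneg_right (min_le_left _ _) (by positivity)
  · rintro ⟨N, hN, s, hnil, hs, hcase⟩
    have h3 := h2 d G S hfin hgen H hH0 hHd N hnil s hs K hK (by
      intro z hz hzi hzi' hzr
      rcases hcase with hcase | ⟨n, b, g1, g2⟩
      · exact hpow' z (hcase z ⟨hz, hzi, hzi', hzr⟩)
      · exact Pool.Agent.Helper168.GG.powSmall_of_matrix N s b g1 g2 hz)
    refine h3.imp_right fun h5 => le_trans ?_ h5
    exact div_le_div_of_nonneg_right (min_le_right _ _) (by positivity)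

end Pool.Agent.Results.MP_d69e80_al.GramGrowth
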